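import Mathlib
import Pool.Agent.Lib.MP_44a246_ntFB.FB0E
import Pool.Agent.Lib.MP_44a246_ntFB.FB23
import Pool.Agent.Lib.MP_44a246_ntFB.FB26
import Pool.Agent.Lib.MP_44a246_ntMB.MB70

/-!
# Vojta's conjecture with truncated counting function for fibrations in curves over generic
sections of arbitrary varieties

Let `κ` be an algebraically closed field of characteristic zero and `K` a function field of one
variable over `κ`. For `i = 1, …, b` (`b = 0` is allowed) let `k i` be a subfield of `K`, let `V i`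
in `ℙ ^ (m i)` be a variety of dimension at most `ν i` over `k i` (the zero set of the forms
`f i l`), and let `F i j`, `j = 1, …, p i`, be forms of degrees `e i j` over `K` whose coefficients
are algebraically independent over `k i`. Let `Y i` be the intersection of `V i` with the
hypersurfaces `F i j = 0`, `j` in `A i`.

Let `X` be a variety over `K`, with a generic point `(y₀, x₀ 0, …, x₀ s)` with coordinates in an
algebraically closed field `Ω`, such that `(1 : y₀ i)` is in `Y i`, but not on `F i j = 0` for `j`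
not in `A i`, for all `i`. So `X` has rational maps to all `Y i`. Suppose that the image of `X` in
`Y i` has dimension at least `μ i ≥ 1`, where

* `∑ j, e i j ≥ R i + 2 r` and `∑ j, e i j + |A i| + μ i ≥ 2 R i + 2 r`, where `R i` is the maximum
  of `ν i` and of a number which depends on `r` and `p i` only (if `ν i` is not smaller than this
  number and `X → Y i` is dominant, then the condition is `∑ j, e i j ≥ ν i + 2 r`; for
  `V i = ℙ ^ ν`, `r = 1` and `A i` = all `j` it says that `Y i` is of general type), or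
* `Y i` is the intersection of `V i` with one hypersurface of degree `d` (`p i = |A i| = 1`), and
  `d - 2 r + 2 ≥ max (6, 2 (ν i) + 1)`, or `r = 1` (the `K`-rational points),
  `d + μ i + 1 ≥ 2 (ν i)` and `d ≥ ν i + 300`, or `d ≥ 6` and `2 d ≥ 3 (ν i) + 2` (for instance
  surfaces of degree `d ≥ 6` in `ℙ ^ 3`, and all curves in them).

Suppose that the fibres of the projection `(y, x 0, …, x l) ↦ (y, x 0, …, x (l - 1))` of `X` have
dimension at most one for all `l ≤ s`, and, for `l < s`, the genus of the fibre is large: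
`2 g - 2 + #D ≥ c l deg`, `c l > 2 (r - 1)`, where `D` is a divisor on the fibre, given by
polynomials `H l j` in `y, x 0, …, x l`.

Then for every finite set `S` of places of `K` and every `ε > 0` there are a polynomial `h` which
does not vanish on `X` and a constant `C` such that for all points `(y, x)` of `X` of degree at
most `r` over `K` with `h ≠ 0`: the heights of `y` and of `x l`, `l < s`, are at most `B`, and

`(c s - ε) h(x s) ≤ N + R + B`,

where `N` is the number of the places outside `S` where the point meets the divisor `D` on the last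
fibration, `R` the degree of the ramification of the field of the point over `K`, and `B` is `C`
times one plus the truncated counting functions of the forms `F i j`, `j` not in `A i`, and of the
divisors of the fibrations `l < s`.

If these counting functions are bounded (for instance if all `F i j` define `Y i` and the divisors
`D` are empty for `l < s`), then this is Vojta's inequality for `X`, every normal crossings divisor
on `X` and the points of degree at most `r`.
-/

namespace Pool.Agent.Lib.Old.MP_44a246_nt_CurveFibrationsV3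

open Pool.Agent.Lib.MP_44a246_nt
open Pool.Agent.Lib.MP_44a246_ntFB
open MvPolynomial

universe u v w u₁

theorem result (r : ℕ) :
    ∃ R : ℕ → ℕ,
      ∀ (b : ℕ) (p m ν μ : Fin b → ℕ) (e : ∀ i, Fin (p i) → ℕ) (A : ∀ i, Finset (Fin (p i))),
        (∀ i, ν i ≤ m i ∧ 1 ≤ μ i ∧ (∀ j, 1 ≤ e i j) ∧
          ((max (ν i) (R (p i)) + 2 * r ≤ ∑ j, e i j ∧
            2 * max (ν i) (R (p i)) + 2 * r ≤ ∑ j, e i j + (A i).card + μ i) ∨
          (p i = 1 ∧ (A i).card = 1 ∧ (max 6 (2 * ν i + 1) + 2 * r ≤ ∑ j, e i j + 2 ∨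
            (r = 1 ∧ 2 * ν i ≤ ∑ j, e i j + μ i + 1 ∧ (ν i + 300 ≤ ∑ j, e i j ∨
              (6 ≤ ∑ j, e i j ∧ 3 * ν i + 2 ≤ 2 * ∑ j, e i j))))))) →
      ∀ (κ : Type u) (K : Type v) [Field κ] [IsAlgClosed κ] [CharZero κ] [Field K]
        [Algebra κ K] (t : K) (_ : Transcendental κ t)
        (_ : FiniteDimensional (IntermediateField.adjoin κ {t}) K)
        (k : Fin b → Subfield K) (a : Fin b → ℕ)
        (f : ∀ i, Fin (a i) → MvPolynomial (Fin (m i + 1)) K) (_ : ∀ i, VarOver (k i) (f i) (ν i))
        (F : ∀ i, Fin (p i) → MvPolynomial (Fin (m i + 1)) K) (_ : ∀ i, GenOver (k i) (F i) (e i))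
        (Ω : Type u₁) [Field Ω] [IsAlgClosed Ω] [Algebra K Ω] (n q : ℕ → ℕ)
        (y₀ : (Σ i : Fin b, Fin (m i)) → Ω)
        (_ : ∀ i, BasePoint (f i) (F i) (A i) (μ i) fun j => y₀ ⟨i, j⟩)
        (x₀ : ∀ l : ℕ, Fin (n l) → Ω) (s : ℕ) (c : ℕ → ℝ)
        (H : ∀ l : ℕ, Fin (q l + 1) →
          MvPolynomial (((Σ i : Fin b, Fin (m i)) ⊕ (Σ i : Fin l, Fin (n i))) ⊕ Fin (n l)) K)
        (d : ∀ l : ℕ, Fin (q l + 1) → ℕ) (_ : Tower K y₀ x₀ s H d c)
        (_ : ∀ l < s, 2 * ((r : ℝ) - 1) < c l)
        (S : Set (Place κ K)) (_ : S.Finite) (ε : ℝ) (_ : 0 < ε),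
        ∃ (h : MvPolynomial ((Σ i : Fin b, Fin (m i)) ⊕ (Σ i : Fin (s + 1), Fin (n i))) K)
          (C : ℕ), aeval (low y₀ x₀ (s + 1)) h ≠ 0 ∧
          ∀ (L : Type w) [Field L] [Algebra K L] [FiniteDimensional K L] [Algebra κ L]
            [IsScalarTower κ K L], Module.finrank K L ≤ r →
          ∀ (y : (Σ i : Fin b, Fin (m i)) → L) (x : ∀ l : ℕ, Fin (n l) → L),
            OnX K y₀ x₀ s y x → aeval (low y x (s + 1)) h ≠ 0 →
          ∀ B : ℝ, B = C * (1 + ∑ i, truncCount κ (F i) (e i) S
              (Fin.cons 1 (fun j => y ⟨i, j⟩) : Fin (m i + 1) → L) + lowCount κ H d S s y x : ℕ) →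
            hgt κ y ≤ B ∧ (∀ l < s, hgt κ (x l) ≤ B) ∧
            (c s - ε) * hgt κ (x s) ≤
              meet κ K (H s) (d s) S (low y x s) (x s) + ramDeg κ L K + B := by
  choose R hR using fun p : ℕ => base_point_all.{u, v, w, u₁} p r
  refine ⟨R, ?_⟩
  intro b p m ν μ e A h1 κ K _ _ _ _ _ t ht hfin k a f hf F hF Ω _ _ _ n q y₀ hy₀ x₀ s c H d hT
    hlow S hS ε hε
  have hcK : CharZero K := charZero_of_injective_algebraMap (algebraMap κ K).injective
  obtain ⟨h, C, hh, hC⟩ := tower_abs.{u, v, w, u₁} ⟨t, ht, hfin⟩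
    (Pool.Agent.Lib.MP_44a246_ntMB.myp κ) r (F := F) (e := e) (y₀ := y₀) (x₀ := x₀) (s := s)
    (c := c) (H := H) (d := d) hS
    (fun i => hR (p i) (m i) (ν i) (μ i) (e i) (A i) (h1 i).2.2.1 (h1 i).1 (h1 i).2.1
      (h1 i).2.2.2 κ K ⟨t, ht, hfin⟩ (k i) (a i) (f i) (hf i) (F i) (hF i) Ω
      (fun j => y₀ ⟨i, j⟩) (hy₀ i) S hS)
    (fun l hl => (hT l hl).1) (fun l hl => (hT l hl).2.1) (fun l hl => (hT l hl).2.2) hlow hε
  refine ⟨h, C, hh, ?_⟩
  intro L _ _ _ _ _ hr y x hX hne B hB
  refine hC L hr y x hX hne B ?_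
  rw [hB]
  unfold lowCount
  push_cast
  rfl

end Pool.Agent.Lib.Old.MP_44a246_nt_CurveFibrationsV3
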