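import Mathlib
import Pool.Agent.Lib.MP_44a246_ntSQ.SQ13

/-!
# Vojta's inequality with truncated counting, up to a constant factor, for generic pairs of log
general type over function fields

Fix `p`. The following holds for all `n`, all `d₁, …, d_p ≥ 1` with `d₁ + … + d_p ≥ n + 2` and all
sets `A` of less than `n` indices, with the exception of finitely many triples
`(n; d₁, …, d_p; A)`. The exceptional triples satisfy the explicit conditions `Exceptional` (in
particular `∑ d_j ≤ 2 n + 1`).

Let `κ` be an algebraically closed field of characteristic zero and of infinite transcendence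
degree over the rational numbers, `K` a function field of one variable over `κ` (`t` is a
separating variable), and `F₁, …, F_p` forms of degrees `d_j` in `n + 1` variables over `K`, whose
coefficients are algebraically independent over the rational numbers (all of them together; they
may be constants). Let `S` be a finite set of places of `K`. Then there is a form `G` over `K` which
does not vanish on the whole of `X = {F_j = 0 for all j in A}`, and a constant `C`, such that for
every finite extension `L` of `K` and every point `x` of `X` over `L` which is on none of the other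
hypersurfaces `{F_j = 0}` and not on `{G = 0}` the height `h(x)` (over `L`, not normalised) satisfies

`h(x) ≤ C ([L : K] + deg Ram(L/K) + N(x))`,

where `N(x)` is the number of the places `w` of `L`, not over `S`, with
`|F_j(x)|_w < |x|_w ^ (d_j)` for some `j` not in `A`: the truncated counting function of the divisor
`D = ∑ {F_j = 0}` (`j` not in `A`) on `X`. (`X` is smooth of dimension `n - |A|`, `D` has normal
crossings, and the log canonical divisor of the pair `(X, D)` is `∑ d_j - n - 1` times the
hyperplane class, so `(X, D)` is of log general type if and only if `∑ d_j ≥ n + 2`.) If `A` is the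
set of all indices, then `N(x) = 0`; if `A` is empty, then `X` is the projective space.

Proof. For `∑ d_j ≥ 2 n + 2` there is a theorem with explicit constants and without exceptional set
(see `TangentInequality`). Assume that `n` is large, and let `x` be a point whose height is much
larger than `[L : K]`, the ramification and `N(x)`. As in the case of a complete intersection
(papers on the sharp range, see `GenericIntersections`) the comparison of slopes of spaces of
derivatives of monomials gives a curve `A` of degree `m ≤ C n` and of height `α ≤ C h / n ^ 2` in the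
plane through a projection of `x`, which parametrises a moving curve `Γ` through `x`; or a curve of
bounded degree and small height. The deformations `F` of the forms with `D_F Γ = 0` form a space `Z`
of codimension at most `C n ^ 2`. The forms of degree `e₀ + 1` (a constant) which vanish on `Γ` see
whether `F` is in `Z` (conormal lemma), and this gives `ht Z ≤ C n α`. At the point `x` the truncated
counting function enters once: the image of `Z` in the space of the `(F_j(Γ))` has dimension at most
`3 m`. The intersection of `Z` with the forms in four constant linear forms of degree `max d_j` and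
the resultant of two such forms, which both vanish on `Γ`, give `α (d ^ 2 / C - C n) ≤` errors: the
height of `Γ` is small. Then one passes to an ultrapower `Ω'` of the algebraic closure: there is a
curve over the field `F₀` of the germs of small elements through a generic point of `X`. The
logarithmic adjunction formula gives `(∑ d_j - n - 1) m ≤ 2 g - 2 + N_Γ`, where `N_Γ` is the number of
the boundary places of the curve; the second main theorem for small moving targets, applied over
`F₀`, gives `N_Γ ≤ 9 g + 5` (and `N_Γ ≤ 2` if `g = 0`); and the count of the deformations of the forms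
which do not move the curve is a contradiction to these two inequalities, because the Hilbert
function of `Γ` grows at least as fast as the powers of `3 / 2`.
-/

namespace Pool.Agent.Results.MP_44a246_nt.GenericPairs

open Pool.Agent.Lib.MP_44a246_nt Pool.Agent.Lib.MP_44a246_ntG

universe u v w

/-- The conditions on the exceptional triples `(n; d₁, …, d_p; A)`. If `A` is the set of all
indices and all `d_j ≥ 2`, they are those of the theorem on generic complete intersections. -/
def Exceptional (p n : ℕ) (d : Fin p → ℕ) (A : Finset (Fin p)) : Prop :=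
  ∑ j, d j ≤ 2 * n + 1 ∧ ((A = Finset.univ ∧ ∃ j, d j = 1) ∨
  (2 * ∑ j, d j + A.card ≤ 3 * n + 5 ∨ ∑ j, d j + A.card ≤ 3 * p + 5) ∧
  (∑ j, d j + A.card ≤ n + p + 300 * p ^ 2 + 75 ∨
    ∃ j, d j < 600 * p ∨ p * d j + A.card < n + p) ∧
  (p = 1 → ∑ j, d j ≤ n + 376 ∧ (2 * ∑ j, d j ≤ 3 * n + 4 ∨ ∑ j, d j ≤ 8)) ∧
  (A = Finset.univ → (2 * ∑ j, d j + p ≤ 3 * n + 5 ∨ ∑ j, d j ≤ p + 7) ∧
    (∑ j, d j ≤ n + 300 * p ^ 2 ∨ ∃ j, d j < 600 * p ∨ p * d j < n) ∧
    (p = 1 → ∑ j, d j ≤ n + 300 ∧ (2 * ∑ j, d j ≤ 3 * n + 3 ∨ ∑ j, d j ≤ 6))))

theorem result (p : ℕ) : ∃ E : Finset (ℕ × (Fin p → ℕ) × Finset (Fin p)),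
    (∀ q ∈ E, Exceptional p q.1 q.2.1 q.2.2) ∧
    ∀ (n : ℕ) (d : Fin p → ℕ) (A : Finset (Fin p)), (∀ j, 1 ≤ d j) → n + 2 ≤ ∑ j, d j →
      A.card < n → (n, d, A) ∉ E →
    ∀ (κ : Type u) (K : Type v) [Field κ] [IsAlgClosed κ] [CharZero κ] [Field K] [CharZero K]
      [Algebra κ K] (_ : Cardinal.aleph0 ≤ Algebra.trdeg ℚ κ) (t : K) (_ : Transcendental κ t)
      (_ : FiniteDimensional (IntermediateField.adjoin κ {t}) K)
      (F : Fin p → MvPolynomial (Fin (n + 1)) K) (_ : ∀ j, (F j).IsHomogeneous (d j))
      (_ : AlgebraicIndependent ℚ
        (fun I : {I : Fin p × (Fin (n + 1) →₀ ℕ) // I.2.degree = d I.1} =>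
          (F I.1.1).coeff I.1.2))
      (S : Set (Place κ K)) (_ : S.Finite),
    ∃ G : MvPolynomial (Fin (n + 1)) K, (∃ e, G.IsHomogeneous e) ∧
      (∃ z : Fin (n + 1) → AlgebraicClosure K, z ≠ 0 ∧
        (∀ j ∈ A, MvPolynomial.aeval z (F j) = 0) ∧ MvPolynomial.aeval z G ≠ 0) ∧
      ∃ C : ℕ, ∀ (L : Type w) [Field L] [Algebra K L] [FiniteDimensional K L] [Algebra κ L]
        [IsScalarTower κ K L] (x : Fin (n + 1) → L), x ≠ 0 →
        (∀ j, MvPolynomial.aeval x (F j) = 0 ↔ j ∈ A) →
        height κ x ≤ C * ((Module.finrank K L : ℤ) + ramDeg κ L K + truncCount κ F d S x) ∨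
          MvPolynomial.aeval x G = 0 := by
  obtain ⟨E, hE, h⟩ := Pool.Agent.Lib.MP_44a246_ntSQ.pairs_finalQE.{u, v, w} p
  refine ⟨E, fun q hq => ?_, h⟩
  obtain ⟨h1, h2 | h2⟩ := hE q hq
  · exact ⟨h1, Or.inl h2⟩
  · exact ⟨h1, Or.inr h2.2⟩

end Pool.Agent.Results.MP_44a246_nt.GenericPairs
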