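import Mathlib
import Pool.Agent.Lib.MP_44a246_ntMU.MU12

/-!
# Function fields: the height inequality for sections, coverings and complements of divisors whose
coefficients satisfy many relations

Let `κ` be an algebraically closed field of characteristic zero, `K` a function field of one
variable over `κ`, and `k` a subfield of `K`. Let `f i` be polynomials over `k` in the variables
`t_1, ..., t_p, x_0, ..., x_N, y_1, ..., y_q`, weighted homogeneous, where `t_j` has the weight
`d j`, the `x_l` have the weight `1` and `y_i` has the weight `wt i`; all the weights of the `x_l`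
and the `y_i` are in the interval `[1, ω]`. Let the closure `V` of the image of the zero set of the
`f i` in the weighted projective space with the coordinates `x, y` have dimension at most `n` (the
ideal of `V` is generated by the polynomials without `t_1, ..., t_p` in the ideal of the `f i`).
Let `H j` be forms of degree `d j` over `K` in `x_0, ..., x_N`, whose coefficients generate over `k`
a field of transcendence degree at least (their number) `- c`: they may satisfy `c` independent
algebraic relations over `k`. Let `f i (H (0), 0, y) = 0` for all `i` only for `y = 0`, where `y`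
has coordinates in an algebraic closure of `K` (so that `y` is integral over `x` on the variety of
these equations). Let `A` and `B` be disjoint sets of indices, `a j ≤ d j` and `c < C (m + a j, m)`
for `j` in `A ∪ B`, and

`θ ≤ ∑_{j in A ∪ B} (d j - a j) + |A| - 2 n - 1 - ∑_i (wt i - 1)`.

Let `X` be the set of all points `(x, y)`, `x ≠ 0`, such that `f i (H (x), x, y) = 0` for all `i`,
`H j (x) ≠ 0` for `j` in `B`, and such that the values `t_j = H j (x)`, `j` in `A`, are determined
by the equations: the rank of `(∂ f_i / ∂ t_j)_{j in A}` at the point is `|A|`, or for every `j` in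
`A` some `f i` without the variables `t_l`, `l` in `A`, `l ≠ j`, has
`f i (H_1 (x), ..., τ, ..., H_p (x), x, y) ≠ 0` for some `τ` (at the place `j`).

Then there are finitely many forms `G` in `x` of degree `∑_{j in A ∪ B} a j` over `K`, whose set of
common zeros in the affine space has dimension at most `m` (so it has dimension at most `m - 1` in
`P^N`), with the following property. For every finite set `S` of places of `K` there is a constant
`C` such that for every finite extension `L` of `K` and every point `(x, y)` of `X` over `L` with
`G (x) ≠ 0` for some `G`, the height `h (x)` (over `L`, not normalised) satisfies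

`θ h (x) ≤ N (x) + deg Ram (L / K) + C [L : K]`,

where `N (x)` is the number of the places `w` of `L`, not over `S`, with
`|H j (x)|_w < |x|_w ^ (d j)` for some `j` in `B`: the truncated counting function of the divisor
`D = ∑ {H j = 0}` (`j` in `B`). Moreover

`(θ - 2 ω ([L : K] - 1)) h (x) ≤ N (x) + C [L : K] ^ 2`

if `L` is generated over `K` by the coordinates of `(x, y)`, and `x l = 1` for some `l`.

So the `S`-integral points of `X - D` of degree `≤ g` outside `{G = 0}` have a bounded height if
`2 ω (g - 1) < θ`. If `B` is empty, this holds for all the points of `X` of degree `≤ g`. If `W` is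
a smooth projective variety with a non-empty open subset contained in `X`, and the forms `G` do not
all vanish on `W`, this gives the conjecture in full for `W`: for all divisors, all `S` and all `ε`,
for the points of degree `≤ g`. There is no condition on the coefficients of the forms except the
number of the independent ones.

Examples.
* `A = {1}`, `B` empty, the equation `t`, `N = n = m`: the hypersurface `X = {H = 0}` of degree
  `d ≥ 2 n + 2 g - 1` in `P^n` (`θ = 2 g - 1`). Let `X` be irreducible, and let the coefficients of
  `H` generate a field of transcendence degree larger than `C (n + d, n) - C (d - n - 2 g + 1, n)`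
  over `k`, which is less than `(2 n + 2 g - 1) C (n + d - 1, n - 1)` if `n ≥ 2`
  (`a = d - 2 n - 2 g + 1`). As the forms `G` have a smaller degree than `H`, they do not all vanish
  on `X`. For fixed `n`, `g` and large `d` only a small part of the `C (n + d, n)` coefficients has
  to be independent. The order of magnitude is optimal: the hypersurfaces with a point of
  multiplicity `d - 1` are rational, and the most general ones have about
  `2 C (n + d - 1, n - 1)` independent coefficients.
* The equations `t_1, ..., t_p` and `F l (x)`: the section `X` of dimension `ν` of an arbitrary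
  variety `{F = 0}` of dimension `ν + p` by `p` hypersurfaces (apply the theorem with `A` = all the
  indices; `θ = ∑ (d j - a j - 1) - 2 ν - 1`). For `c ≤ a j` the exceptional set is finite
  (`m = 1`).
* `A` empty, the equations `F l (x)` of an arbitrary variety `V` of dimension `n`: the second main
  theorem with truncated counting function for `D = ∑ {H j = 0}` on `V`, with
  `θ = ∑ (d j - a j) - 2 n - 1`.
* The equations `t_j - y_j ^ μ_j` and `F l (x)` (`A` = all the indices): the cyclic coverings of a
  variety `{F = 0}` of dimension `ν`, ramified along the hypersurfaces `H j = 0` of degree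
  `d j = μ_j e_j`, where `e_j` is the weight of `y_j`, with `θ = ∑ (d j - e_j - a j) - 2 ν - 1`.

Proof: Let `D_I` be derivations of `K` which are zero on `k` and dual to a transcendence basis
consisting of coefficients of the `H j`. By linear algebra, for the general linear form `ℓ` (with
independent coefficients) and `J = d j - a j`, there is a form `G` of degree `a j` in any `m + 1` of
the variables such that `ℓ ^ J G` is a combination of the derivatives `D_I H j`, with vanishing
contributions of the other forms. The corresponding combinations of the derivatives of a point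
`(x, y)`, together with the logarithmic derivatives of `H j (x)`, `j` in `B`, are vectors whose
values under the differentials of the equations at the point are multiples of `ℓ (x) ^ J G (x)`.
The spaces spanned by their derivatives with respect to the coefficients of `ℓ` have small
dimension, and some minor of these vectors is not zero and divisible by a large power of `ℓ (x)`:
the number of the derivations with respect to the coefficients of `ℓ` which are needed is bounded
by the number of the new dimensions. At a place, the logarithmic derivatives contribute together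
one simple pole, and only at the places which are counted in `N (x)`. By the lemma of Gauss, the
product formula bounds the height.
-/

namespace Pool.Agent.Results.MP_44a246_nt.ManyRelations

open Pool.Agent.Lib.MP_44a246_nt MvPolynomial

universe u v w x

section

variable {κ k K L : Type*} [Field κ] [Field k] [Field K] [Field L] {N p q s : ℕ}

/-- The value at the point `(H (x), x, y)` of a polynomial over `k` in the variables
`t_1, ..., t_p`, `x_0, ..., x_N` and `y_1, ..., y_q`. -/
noncomputable def ev [Algebra k L] [Algebra K L] (H : Fin p → MvPolynomial (Fin (N + 1)) K)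
    (x : Fin (N + 1) → L) (y : Fin q → L)
    (f : MvPolynomial (Fin p ⊕ (Fin (N + 1) ⊕ Fin q)) k) : L :=
  aeval (Sum.elim (fun j => aeval x (H j)) (Sum.elim x y) : Fin p ⊕ (Fin (N + 1) ⊕ Fin q) → L) f

/-- The same with `τ` instead of `H j (x)`. -/
noncomputable def evAt [Algebra k L] [Algebra K L] (H : Fin p → MvPolynomial (Fin (N + 1)) K)
    (x : Fin (N + 1) → L) (y : Fin q → L) (j : Fin p) (τ : L)
    (f : MvPolynomial (Fin p ⊕ (Fin (N + 1) ⊕ Fin q)) k) : L :=
  aeval (Sum.elim (Function.update (fun j => aeval x (H j)) j τ) (Sum.elim x y) :
    Fin p ⊕ (Fin (N + 1) ⊕ Fin q) → L) f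

/-- The points `(x, y)` of `X`: the equations, `H j (x) ≠ 0` for `j` in `B`, and the equations
determine the values `t_j = H j (x)` for `j` in `A`. -/
def OnX [Algebra k L] [Algebra K L] (f : Fin s → MvPolynomial (Fin p ⊕ (Fin (N + 1) ⊕ Fin q)) k)
    (A B : Finset (Fin p)) (H : Fin p → MvPolynomial (Fin (N + 1)) K) (x : Fin (N + 1) → L)
    (y : Fin q → L) : Prop :=
  x ≠ 0 ∧ (∀ i, ev H x y (f i) = 0) ∧ (∀ j ∈ B, aeval x (H j) ≠ 0) ∧
    ((∃ i : A → Fin s, (Matrix.of fun a b : A =>
      ev H x y (pderiv (Sum.inl b.1) (f (i a)))).det ≠ 0) ∨
    ∀ j ∈ A, ∃ (i : Fin s) (τ : L), (∀ l ∈ A, l ≠ j → Sum.inl l ∉ (f i).vars) ∧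
      evAt H x y j τ (f i) ≠ 0)

/-- The dimension of the ring of the polynomials in `x_0, ..., x_N, y_1, ..., y_q` modulo those
which are in the ideal of the `f i`: the dimension of the closure of the image of the zero set of
the `f i` in the affine space with the coordinates `x, y`. -/
noncomputable def imDim (f : Fin s → MvPolynomial (Fin p ⊕ (Fin (N + 1) ⊕ Fin q)) k) :
    WithBot ℕ∞ :=
  ringKrullDim (MvPolynomial (Fin (N + 1) ⊕ Fin q) k ⧸ (Ideal.span (Set.range f)).comap
    (rename (Sum.inr : Fin (N + 1) ⊕ Fin q → Fin p ⊕ (Fin (N + 1) ⊕ Fin q))))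

/-- The coefficients of the forms `H j` of degrees `d j` generate over `k` a field of transcendence
degree at least (the number of the monomials of these degrees) `- c`. -/
def Gen (k : Type*) {K : Type*} [Field k] [Field K] [Algebra k K] {N p : ℕ} (d : Fin p → ℕ)
    (H : Fin p → MvPolynomial (Fin (N + 1)) K) (c : ℕ) : Prop :=
  (Nat.card {I : Fin p × (Fin (N + 1) →₀ ℕ) // I.2.degree = d I.1} : Cardinal) ≤
    Algebra.trdeg k (IntermediateField.adjoin k
      (Set.range fun I : {I : Fin p × (Fin (N + 1) →₀ ℕ) // I.2.degree = d I.1} =>
        (H I.1.1).coeff I.1.2)) + c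

/-- The truncated counting function: the number of the places `w` of `L`, not over `S`, with
`|H j (x)|_w < |x|_w ^ (d j)` for some `j` in `B`. -/
noncomputable def trunc [Algebra κ K] [Algebra κ L] [Algebra K L] (S : Set (Place κ K))
    (d : Fin p → ℕ) (B : Finset (Fin p)) (H : Fin p → MvPolynomial (Fin (N + 1)) K)
    (x : Fin (N + 1) → L) : ℕ :=
  Set.ncard {w : Place κ L | (∀ v ∈ S, ¬ (w.1.comap (algebraMap K L)).IsEquiv v.1) ∧
    ∃ j ∈ B, w.1 (aeval x (H j)) < vmax w.1 x ^ d j}

end

theorem result {κ : Type u} {K : Type v} [Field κ] [IsAlgClosed κ] [CharZero κ] [Field K]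
    [Algebra κ K] (t₀ : K) (ht₀ : Transcendental κ t₀)
    (hfin : FiniteDimensional (IntermediateField.adjoin κ {t₀}) K)
    {k : Type x} [Field k] [Algebra k K] {N n p q c m s ω θ : ℕ} {d a : Fin p → ℕ}
    {wt : Fin q → ℕ} {e : Fin s → ℕ} (hwt : ∀ i, 1 ≤ wt i ∧ wt i ≤ ω) (hω : 1 ≤ ω)
    {A B : Finset (Fin p)} (hAB : Disjoint A B) (had : ∀ j ∈ A ∪ B, a j ≤ d j)
    (hd : ∑ j ∈ A ∪ B, a j + 2 * n + 1 + ∑ i, (wt i - 1) + θ ≤ ∑ j ∈ A ∪ B, d j + A.card)
    (hc : ∀ j ∈ A ∪ B, c < (m + a j).choose m)
    (f : Fin s → MvPolynomial (Fin p ⊕ (Fin (N + 1) ⊕ Fin q)) k)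
    (hf : ∀ i, (f i).IsWeightedHomogeneous (Sum.elim d (Sum.elim (fun _ => 1) wt)) (e i))
    (hdim : imDim f ≤ ((n + 1 : ℕ) : WithBot ℕ∞))
    (H : Fin p → MvPolynomial (Fin (N + 1)) K) (hH : ∀ j, (H j).IsHomogeneous (d j))
    (hgen : Gen k d H c)
    (hX : ∀ y : Fin q → AlgebraicClosure K, (∀ i, ev H 0 y (f i) = 0) → y = 0) :
    ∃ (b : ℕ) (G : Fin b → MvPolynomial (Fin (N + 1)) K),
      (∀ i, (G i).IsHomogeneous (∑ j ∈ A ∪ B, a j)) ∧
      ringKrullDim (MvPolynomial (Fin (N + 1)) K ⧸ Ideal.span (Set.range G)) ≤
        (m : WithBot ℕ∞) ∧
      ∀ S : Set (Place κ K), S.Finite → ∃ C : ℕ, ∀ (L : Type w) [Field L] [Algebra K L]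
        [FiniteDimensional K L] [Algebra κ L] [IsScalarTower κ K L] [Algebra k L]
        [IsScalarTower k K L] (x : Fin (N + 1) → L) (y : Fin q → L),
        OnX f A B H x y → (∃ i, aeval x (G i) ≠ 0) →
        (θ : ℤ) * height κ x ≤ trunc S d B H x + ramDeg κ L K + C * Module.finrank K L ∧
        ((∃ l, x l = 1) → IntermediateField.adjoin K (Set.range x ∪ Set.range y) = ⊤ →
          ((θ : ℤ) - 2 * ω * ((Module.finrank K L : ℤ) - 1)) * height κ x ≤
            trunc S d B H x + C * (Module.finrank K L : ℤ) ^ 2) := by
  have hcK : CharZero K := charZero_of_injective_algebraMap (algebraMap κ K).injective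
  have hck : CharZero k := (algebraMap k K).charZero
  obtain ⟨b, G, hG, hGd, h⟩ := Pool.Agent.Lib.MP_44a246_ntMU.several_forms_xy.{u, v, w, x}
    ⟨t₀, ht₀, hfin⟩ hwt hω hAB had hd hc f hf hdim H hH hgen hX
  refine ⟨b, G, hG, hGd, fun S hS => ?_⟩
  obtain ⟨C, hC⟩ := h S hS
  exact ⟨C, fun L _ _ _ _ _ _ _ x y ⟨hx, hxf, hxB, hxA⟩ hxG => hC L x y hx hxf hxA hxB hxG⟩

end Pool.Agent.Results.MP_44a246_nt.ManyRelations
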