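import Mathlib
import Pool.Agent.Lib.MP_44a246_ntT.TPoly
import Pool.Agent.Lib.MP_44a246_ntT.TNum
import Pool.Agent.Lib.MP_44a246_ntB.Comb
import Pool.Agent.Lib.MP_44a246_ntV.VQ

/-!
# Generic pairs over function fields: all algebraic points off the exceptional lines

Let `κ` be an algebraically closed field of characteristic zero and `K` a function field of one
variable over `κ`. Let `F 0, ..., F (q - 1)` be forms over `K` in `n + 1` variables, of degrees
`d i ≥ 1`, all of whose coefficients are algebraically independent over the rational numbers, and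
suppose that `k = ∑ d i - n - 1` is positive. For a point `x` of projective `n`-space over a finite
extension `L` of `K` let `A` be the set of the `i` with `F i x = 0`; then `x` lies on the complete
intersection `X_A` of the `F i`, `i` in `A`, of dimension `m = n - #A`, and outside of the divisor
`D_A`, the sum of the restrictions of the other `F i` to `X_A`, and `K_X + D` is `O(k)`.

There are forms `G A` over `K` (which depend only on the `F i`) such that `G A` does not vanish
identically on `X_A - D_A` and with the following property. Let `S` be a finite set of places of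
`K` and let `τ` be at most the transcendence degree of the point `x` over the field generated by
all coefficients of the `F i` (for instance `τ = 0`). Suppose that `m < 2 k + τ`, or that
`m = 2 k + τ`, `τ ≤ 1` and either all `F i` vanish at `x` and all `d i` are at least `2` (compact
case), or `n = 2` and `q = 1` (complement of a plane curve of degree four). Then

`h(x) ≤ c' (N(x) + deg Ram(L/K)) + C [L : K]`,

where `N(x)` is the truncated counting function (number of places of `L` outside `S` at which `x`
meets `D_A`), unless `x` is a zero of `G A` and lies on a line in `X_A` which has at most two points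
in common with `D_A`; such lines can occur only if `∑ d i + #A ≤ 2 n`, and if `A` contains all
indices only if `∑ d i + q ≤ 2 n - 2`. Here `C` depends only on `K`, the `F i` and `S`, and
`c' = c` depends only on `n`, `q` and the `d i` if `m < 2 k + τ`, and `c' = C` otherwise.

If `A` contains all indices and `L = K`, then the theorem says that the height is bounded on the
`K`-rational points of `X = X_A` outside the closed subset `G A = 0` (if `m = 2 k + 1`: on those
with `τ ≥ 1`; the points with `τ = 0` are constant if the coefficients of the `F i` are in `κ`).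
-/

namespace Pool.Agent.Results.MP_44a246_nt.OffLines

open Pool.Agent.Lib.MP_44a246_nt Pool.Agent.Lib.MP_44a246_ntT Pool.Agent.Lib.MP_e52354_ntG

universe u v w

/-- The point `x` is a zero of the form `G` and lies on a line over `L` on which all `F i` with
`i` in `A` vanish and on which the other `F i` have at most two zeros in all over the algebraic
closure of `L`; moreover `∑ d i + #A ≤ 2 n`, and `∑ d i + q ≤ 2 n - 2` if `A` contains all indices.
(All points of the line except `x` itself are represented by `z x + y`.) -/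
def Exceptional {K : Type v} [Field K] {n q : ℕ} (d : Fin q → ℕ)
    (F : Fin q → MvPolynomial (Fin (n + 1)) K) (G : MvPolynomial (Fin (n + 1)) K)
    (A : Finset (Fin q)) {L : Type w} [Field L] [Algebra K L] (x : Fin (n + 1) → L) : Prop :=
  ∑ i, d i + A.card ≤ 2 * n ∧ (A = Finset.univ → ∑ i, d i + q + 2 ≤ 2 * n) ∧
    MvPolynomial.aeval x G = 0 ∧ ∃ y : Fin (n + 1) → L, LinearIndependent L ![x, y] ∧
      (∀ i ∈ A, ∀ u v : L, MvPolynomial.aeval (fun j => u * x j + v * y j) (F i) = 0) ∧
      {z : AlgebraicClosure L | ∃ i, i ∉ A ∧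
        MvPolynomial.aeval (fun j => z * algebraMap L (AlgebraicClosure L) (x j) +
          algebraMap L (AlgebraicClosure L) (y j)) (F i) = 0}.encard ≤ 2

theorem result {n q : ℕ} (d : Fin q → ℕ) (hd : ∀ i, 1 ≤ d i) (hk : n + 2 ≤ ∑ i, d i) :
    ∃ c : ℕ, ∀ (κ : Type u) (K : Type v) [Field κ] [IsAlgClosed κ] [CharZero κ] [Field K]
      [CharZero K] [Algebra κ K] (t : K) [FiniteDimensional (IntermediateField.adjoin κ {t}) K]
      (F : Fin q → MvPolynomial (Fin (n + 1)) K), Transcendental κ t →
      (∀ i, (F i).IsHomogeneous (d i)) →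
      AlgebraicIndependent ℚ
        (fun θ : Σ i, {I : Fin (n + 1) →₀ ℕ // I.degree = d i} => (F θ.1).coeff θ.2.1) →
      ∃ G : Finset (Fin q) → MvPolynomial (Fin (n + 1)) K,
        (∀ A : Finset (Fin q), A.card ≤ n → (∃ e, (G A).IsHomogeneous e) ∧
          ∃ z : Fin (n + 1) → AlgebraicClosure K, z ≠ 0 ∧
            (∀ i, MvPolynomial.aeval z (F i) = 0 ↔ i ∈ A) ∧ MvPolynomial.aeval z (G A) ≠ 0) ∧
        ∀ S : Set (Place κ K), S.Finite → ∃ C : ℕ, ∀ (L : Type w) [Field L] [Algebra K L]
          [FiniteDimensional K L] [Algebra κ L] [IsScalarTower κ K L] (x : Fin (n + 1) → L)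
          (A : Finset (Fin q)) (τ : ℕ), x ≠ 0 →
          (∀ i, MvPolynomial.aeval x (F i) = 0 ↔ i ∈ A) →
          (τ : Cardinal) ≤ Algebra.trdeg (coefField F) (pointField (coefField F) x) →
          (n : ℤ) - A.card < 2 * (∑ i, (d i : ℤ) - (n + 1)) + τ ∨
            (n : ℤ) - A.card = 2 * (∑ i, (d i : ℤ) - (n + 1)) + τ ∧ τ ≤ 1 ∧
              ((A = Finset.univ ∧ ∀ i, 2 ≤ d i) ∨ (n = 2 ∧ q = 1)) →
          height κ x ≤
            (if (n : ℤ) - A.card < 2 * (∑ i, (d i : ℤ) - (n + 1)) + τ then c else C) *
              ((truncCount κ F d S x : ℤ) + ramDeg κ L K) + C * Module.finrank K L ∨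
            Exceptional d F (G A) A x := by
  classical
  refine ⟨cU (n + 1) q (∑ i, d i), ?_⟩
  intro κ K _ _ _ _ _ _ t _ F ht hF hgen
  have hc : AlgebraicIndependent ℚ (fun θ : MIdx (n + 1) q d => (F θ.1).coeff θ.2.1) := by
    have h1 : (fun θ : MIdx (n + 1) q d => (F θ.1).coeff θ.2.1) =
        (fun θ : Σ i, {I : Fin (n + 1) →₀ ℕ // I.degree = d i} => (F θ.1).coeff θ.2.1) ∘
        (fun θ : MIdx (n + 1) q d =>
          ⟨θ.1, ⟨θ.2.1, Pool.Agent.Lib.MP_e52354_nt.mem_expo.mp θ.2.2⟩⟩) := rfl
    rw [h1]
    apply hgen.comp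
    rintro ⟨i, I, h⟩ ⟨i', I', h'⟩ heq
    simp only [Sigma.mk.injEq] at heq
    obtain ⟨h1, h2⟩ := heq
    subst h1
    simp only [heq_eq_eq, Subtype.mk.injEq] at h2
    subst h2
    rfl
  have hex : ∀ A : Finset (Fin q), ∃ G : MvPolynomial (Fin (n + 1)) K, A.card ≤ n →
      ((∃ e, G.IsHomogeneous e) ∧
        ∃ z : Fin (n + 1) → AlgebraicClosure K, z ≠ 0 ∧
          (∀ i, MvPolynomial.aeval z (F i) = 0 ↔ i ∈ A) ∧ MvPolynomial.aeval z G ≠ 0) ∧
      ∀ (L : Type w) [Field L] [Algebra K L] (x y : Fin (n + 1) → L),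
        LinearIndependent L ![x, y] → (∀ i, MvPolynomial.aeval x (F i) = 0 ↔ i ∈ A) →
        (∀ i ∈ A, ∀ u v : L, MvPolynomial.aeval (fun j => u * x j + v * y j) (F i) = 0) →
        {z : AlgebraicClosure L | ∃ i, MvPolynomial.aeval x (F i) ≠ 0 ∧
          MvPolynomial.aeval (fun j => z * algebraMap L (AlgebraicClosure L) (x j) +
            algebraMap L (AlgebraicClosure L) (y j)) (F i) = 0}.encard ≤ 2 →
        MvPolynomial.aeval x G = 0 := by
    intro A
    by_cases hA : A.card ≤ n
    · obtain ⟨e, H, h1, h2, h3⟩ := exists_HLog.{w} hd hk F hF hc hA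
      exact ⟨H, fun _ => ⟨⟨⟨e, h1⟩, h2⟩, h3⟩⟩
    · exact ⟨0, fun h => absurd h hA⟩
  choose G hG using hex
  refine ⟨G, fun A hA => (hG A hA).1, ?_⟩
  intro S hS
  obtain ⟨C₁, hC₁⟩ := poly_log_mainT.{w} ht d hd F hF hgen S hS
  obtain ⟨C₂, hC₂⟩ := Pool.Agent.Lib.MP_44a246_ntB.poly_comb.{w} ht d hd F hF hgen S hS
  obtain ⟨C₃, hC₃⟩ := Pool.Agent.Lib.MP_44a246_ntV.poly_bd.{w} ht d F hF hgen
  refine ⟨C₁ + C₂ + C₃, ?_⟩
  intro L _ _ _ _ _ x A τ hx hA hτ hyp
  have hcard : Nat.card {i // MvPolynomial.aeval x (F i) = 0} = A.card := by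
    rw [← Fintype.card_coe A, ← Nat.card_eq_fintype_card]
    exact Nat.card_congr (Equiv.subtypeEquivRight hA)
  -- the exceptional points
  have hexc : (∑ i, d i + Nat.card {i // MvPolynomial.aeval x (F i) = 0} ≤ 2 * n + 1 ∧
        ∃ y : Fin (n + 1) → L, LinearIndependent L ![x, y] ∧
          (∀ i, MvPolynomial.aeval x (F i) = 0 →
            ∀ u v : L, MvPolynomial.aeval (fun j => u * x j + v * y j) (F i) = 0) ∧
          {z : AlgebraicClosure L | ∃ i, MvPolynomial.aeval x (F i) ≠ 0 ∧
            MvPolynomial.aeval (fun j => z * algebraMap L (AlgebraicClosure L) (x j) +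
              algebraMap L (AlgebraicClosure L) (y j)) (F i) = 0}.encard ≤ 2) →
      Exceptional d F (G A) A x := by
    rintro ⟨h1, y, hy, h2, h3⟩
    rw [hcard] at h1
    obtain ⟨h5, h6⟩ := exc_num F hF hc hy hA (fun i hi => h2 i ((hA i).mpr hi)) h3
    refine ⟨h5, h6, ?_, y, hy, fun i hi => h2 i ((hA i).mpr hi), ?_⟩
    · exact (hG A (by omega)).2 L x y hy hA (fun i hi => h2 i ((hA i).mpr hi)) h3
    · have h4 : {z : AlgebraicClosure L | ∃ i, i ∉ A ∧
          MvPolynomial.aeval (fun j => z * algebraMap L (AlgebraicClosure L) (x j) +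
            algebraMap L (AlgebraicClosure L) (y j)) (F i) = 0} =
          {z : AlgebraicClosure L | ∃ i, MvPolynomial.aeval x (F i) ≠ 0 ∧
            MvPolynomial.aeval (fun j => z * algebraMap L (AlgebraicClosure L) (x j) +
              algebraMap L (AlgebraicClosure L) (y j)) (F i) = 0} := by
        ext z
        simp only [Set.mem_ofPred_eq, Ne, hA]
      rw [h4]
      exact h3
  have hN : (0 : ℤ) ≤ (truncCount κ F d S x : ℤ) := Int.natCast_nonneg _
  have hR : (0 : ℤ) ≤ (ramDeg κ L K : ℤ) := Int.natCast_nonneg _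
  have hfr : (0 : ℤ) ≤ (Module.finrank K L : ℤ) := Int.natCast_nonneg _
  have hc1 : (0 : ℤ) ≤ (C₁ : ℤ) := Int.natCast_nonneg _
  have hc2 : (0 : ℤ) ≤ (C₂ : ℤ) := Int.natCast_nonneg _
  have hc3 : (0 : ℤ) ≤ (C₃ : ℤ) := Int.natCast_nonneg _
  by_cases hlt : (n : ℤ) - A.card < 2 * (∑ i, (d i : ℤ) - (n + 1)) + τ
  · rw [if_pos hlt]
    rcases hC₁ L x hx τ hτ (by rw [hcard]; exact hlt) with h | h
    · left
      refine h.trans ?_
      push_cast
      nlinarith [mul_nonneg hc2 hfr, mul_nonneg hc3 hfr]
    · exact Or.inr (hexc h)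
  · rw [if_neg hlt]
    obtain ⟨heq, hτ1, hcase⟩ := hyp.resolve_left hlt
    have hpos : (n : ℤ) + 1 < ∑ i, (d i : ℤ) := by
      have h1 : ((n + 2 : ℕ) : ℤ) ≤ ((∑ i, d i : ℕ) : ℤ) := by exact_mod_cast hk
      push_cast at h1
      linarith
    obtain rfl | rfl : τ = 0 ∨ τ = 1 := by omega
    · have hor : (∀ i, MvPolynomial.aeval x (F i) = 0 ∧ 2 ≤ d i) ∨ (n = 2 ∧ q = 1) := by
        rcases hcase with ⟨hu, h2⟩ | h
        · left
          intro i
          exact ⟨(hA i).mpr (by rw [hu]; exact Finset.mem_univ i), h2 i⟩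
        · exact Or.inr h
      have heq' : (n : ℤ) - Nat.card {i // MvPolynomial.aeval x (F i) = 0} =
          2 * (∑ i, (d i : ℤ) - (n + 1)) := by
        rw [hcard, heq]
        simp
      rcases hC₂ L x hx (Or.inr ⟨heq', hpos, hor⟩) with h | h
      · left
        refine h.trans ?_
        push_cast
        nlinarith [mul_nonneg hc1 (add_nonneg (add_nonneg hN hR) hfr),
          mul_nonneg hc3 (add_nonneg (add_nonneg hN hR) hfr)]
      · exact Or.inr (hexc h)
    · rcases hcase with ⟨hu, h2⟩ | ⟨hn2, hq1⟩
      · have hall : ∀ i, MvPolynomial.aeval x (F i) = 0 := fun i =>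
          (hA i).mpr (by rw [hu]; exact Finset.mem_univ i)
        have hcq : A.card = q := by rw [hu, Finset.card_univ, Fintype.card_fin]
        have heq' : (n : ℤ) - q = 2 * (∑ i, (d i : ℤ) - (n + 1)) + 1 := by
          have h1 : (A.card : ℤ) = q := by exact_mod_cast hcq
          rw [h1] at heq
          exact heq
        rcases hC₃ L x hx (by exact_mod_cast hτ) hk h2 heq' hall with h | ⟨y, hy, hz⟩
        · left
          refine h.trans ?_
          push_cast
          nlinarith [mul_nonneg hc1 (add_nonneg (add_nonneg hN hR) hfr),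
            mul_nonneg hc2 (add_nonneg (add_nonneg hN hR) hfr), mul_nonneg hc3 hN]
        · right
          have hempty : {z : AlgebraicClosure L | ∃ i, MvPolynomial.aeval x (F i) ≠ 0 ∧
              MvPolynomial.aeval (fun j => z * algebraMap L (AlgebraicClosure L) (x j) +
                algebraMap L (AlgebraicClosure L) (y j)) (F i) = 0} = ∅ := by
            ext z
            simp only [Set.mem_ofPred_eq, Set.mem_empty_iff_false, iff_false, not_exists,
              not_and]
            intro i hi
            exact absurd (hall i) hi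
          have hle : {z : AlgebraicClosure L | ∃ i, MvPolynomial.aeval x (F i) ≠ 0 ∧
              MvPolynomial.aeval (fun j => z * algebraMap L (AlgebraicClosure L) (x j) +
                algebraMap L (AlgebraicClosure L) (y j)) (F i) = 0}.encard ≤ 2 := by
            rw [hempty]
            simp
          obtain ⟨h5, -⟩ := exc_num F hF hc hy hA (fun i _ => hz i) hle
          exact hexc ⟨by rw [hcard]; omega, y, hy, fun i _ => hz i, hle⟩
      · exfalso
        have h1 : A.card ≤ q := by
          have := Finset.card_le_univ A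
          rwa [Fintype.card_fin] at this
        push_cast at heq
        omega

end Pool.Agent.Results.MP_44a246_nt.OffLines
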