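import Mathlib
import Pool.Agent.Lib.MP_44a246_ntTA.TA19

/-!
# Vojta's conjecture with truncated counting function for generic complete intersections of almost
all types, all divisors and points of bounded degree, over function fields

Let `p` and `r` be natural numbers and `ε > 0`. Let `κ` be an algebraically closed field of
characteristic zero, `K` a function field of one variable over `κ` (`t` is a separating variable),
and `F₁, …, F_p` forms of degrees `d_j ≥ 1` in `n + 1` variables over `K` whose coefficients are
algebraically independent over the rational numbers (all of them together; they may be constants).
Let `S` be a finite set of places of `K`, `A` a set of less than `n` indices,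
`X = {F_j = 0 for all j in A}` and `k = ∑ d_j - n - 1`, the sum over all `j`. For a point `x` over a
finite extension `L` of `K` let `h(x)` be the height over `L` (not normalised), `R = deg Ram(L/K)`
and `N(x)` the truncated counting function: the number of the places `w` of `L`, not over `S`, with
`|F_j(x)|_w < |x|_w ^ (d_j)` for some `j` with `F_j(x) ≠ 0`.

There is a finite set `E` of types, which depends on `p`, `r`, `ε` only (and contains only types with
`d_j ≤ 2 n + 2 r` for all `j` in `A`), such that: if the type `(n; A; d_j for j in A)` of `X` does
not belong to `E`, then there are a form `G` over `K` which does not vanish on the whole of `X` and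
a constant `C` such that

`(k - ε) h(x) ≤ N(x) + R + C`

for every finite extension `L` of `K` of degree at most `r` and every point `x` of `X` over `L` with
`G(x) ≠ 0`.

`X` is smooth and irreducible of dimension `n - |A| ≥ 1`, the divisor `D = ∑ {F_j = 0}` (`j` not in
`A`) on `X` has normal crossings, and the log canonical divisor of `(X, D)` is `k` times the
hyperplane class. So this is the inequality of Vojta's conjecture for the points of degree at most
`r`, with this `ε` (and the hyperplane class as the ample divisor), for all but finitely many types
of `X` (for instance for `X = ℙ ^ n`, `A` empty, for all large `n`) and for all such divisors `D`;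
nothing is assumed about their degrees.

Proof. *A type with `d_j > 2 n + 2 r` for some `j` in `A`*: the comparison of the slopes for the
form `F_j` alone gives `(d_j - 2 n) h(x) ≤ R + C [L : K]`, and `R ≤ (2 r - 2) h(x)` if `L = K(x)`,
so the height of the points is bounded. So let `n` be large, and `k ≥ 1`.

*The field of the point.* An extension `L` of `K(x)` is reduced to `K(x)`, because
`N_L + R(L/K) ≥ [L : K(x)] (N_{K(x)} + R(K(x)/K))`. So let `L = K(x)` and suppose that the
inequality fails: `R + N + ε h(x) ≤ k h(x)` up to a constant.

*The rows.* The space of the rows is spanned by the vectors `(D_s x_i)_s`, where `D_s` are the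
derivations of `L` which extend the partial derivatives with respect to the coefficients `a_s` of
the forms, and by the rows `(D_s F_j(x) / F_j(x))_s` for the forms which do not vanish at `x`; it
contains the vectors of monomials of degree `d_j` of `x` (for all `j`), and its height is at most
`(n + 1) h + R + N` up to a constant: at a ramified place, or a place of contact, all rows are
regular modulo the multiples of one vector with constant coordinates.

*The curve.* The slope inequality for spaces of squares of `x` and spaces of rows gives a curve of
bounded degree through (a projection of) `x`, whose equations have coefficients in `L`. One uses one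
form `F_j` for which the number of the places where only this form has a contact is at most
`(d_j - e) h`, `e = n / p`; its degree is lowered to `e` by the contraction with a power of a linear
form, so that nothing depends on the degrees. The derivations of `K` are used to show that the
heights of the coefficients of the equations are bounded by a constant: otherwise their derivatives
along the rows are new rows which violate the slope inequality.

*The limit.* If the points with `F_j(x) = 0` exactly for `j` in `A'`, a set which contains `A`, are
not in a closed set of dimension less than `n - |A'|` (empty if `|A'| ≥ n`), then there is a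
sequence of such points which is generic in a set of dimension `m ≥ n - |A'|`, and the curves have a
limit, a curve over the field of the germs (modulo an ultrafilter) of the sequences of functions of
bounded height. The count of the deformations of the forms (Clemens, Ein, Voisin, Pacienza) gives
`2 g - 2 + b ≥ (|A'| + ∑ d_j + max (m, 1) - 2 n - 1) a ≥ k a`, where `g` is the genus of the curve, `a` its
degree and `b` the number of the points of the curve on the hypersurfaces `F_j = 0`, `j` not in `A'`.
On the other hand `(2 g - 2 + b - ε') h(x) ≤ a (N + R)` up to a constant for the points of the
sequence, by the truncated second main theorem with moving targets for points of bounded degree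
over function fields (McQuillan, Yamanoi), applied to a function on the curve and its branch points.
Finally, finitely many closed sets of smaller dimension do not cover `X`, and a change of the field
of constants removes the assumption that the transcendence degree of `κ` is infinite.

*The projective line with moving targets.* The inequality
`(q - 2 - ε) h(x) ≤ #(places where x meets a target) + R(L/κ(t)) + C ([L : κ(t)] + ∑ h(b_v))` for
`x` and different targets `b₁, …, b_q` in a finite extension `L` of `κ(t)` is known; it is proved here
by a maximum principle, without differential geometry. First let `κ = ℂ`. Let `'` be the extension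
of `d/dt`, `h_{uv} = 1 / (b_u - x) - 1 / (b_v - x)` and `W_T = h_{ij}' h_{jk} - h_{ij} h_{jk}'` for a
triple `T = {i, j, k}` (if `W_T = 0` then `x` is a Moebius function of three targets). Let `F_T` be
`log |W_T|²` minus a suitable combination of logarithms of products and sums of the `|h_{uv}|²` (a
singular metric of negative curvature, of the kind used by Ahlfors and Nevanlinna), and `G_T` the
sum of `F_T`, of potentials of the cross ratios of four targets, of `log (1 + |t|²)`, of
`-(1 - 4 ε) log (∑ |h_{uv}|² / |h_a|²)` and of `(1 / n) log |g|²`. Where `F_T` is the largest of all
`F_S`, its Laplacian is at least `1 - 4 ε` times the one of `log ∑ |h_{uv}|²` minus the Laplacians of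
the potentials. At a place `w` the function `F_T` has a pole of order at most `e_w` if `x` meets a
target or two targets meet at `w`, and of order at most `e_w - 1` otherwise. If the inequality fails,
then by the inequality of Riemann there are `n` and `g` in `L` such that the maximum of the `G_T`
tends to `-∞` at all singular places; so it has a maximum at a regular place, where the Laplacian of
`G_T` is positive, a contradiction. (A limit of places along an ultrafilter is a place, because the
bounded functions form a valuation ring.) For a general `κ` everything is defined over a countable
algebraically closed subfield of `ℂ`, and heights, ramification and meeting places do not change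
under an extension of the constants.
-/

namespace Pool.Agent.Lib.Old.MP_44a246_nt_SharpVojta

open Pool.Agent.Lib.MP_44a246_nt

universe u v w

theorem result (p r : ℕ) {ε : ℝ} (hε : 0 < ε) :
    ∃ E : Finset (ℕ × Finset (Fin p) × (Fin p → ℕ)),
      (∀ e ∈ E, ∀ j ∈ e.2.1, e.2.2 j ≤ 2 * e.1 + 2 * r) ∧
      ∀ (n : ℕ) (d : Fin p → ℕ) (A : Finset (Fin p)), (∀ j, 1 ≤ d j) → A.card < n →
        (n, A, fun j => if j ∈ A then d j else 0) ∉ E →
      ∀ (κ : Type u) (K : Type v) [Field κ] [IsAlgClosed κ] [CharZero κ] [Field K] [CharZero K]
        [Algebra κ K] (t : K) (_ : Transcendental κ t)
        (_ : FiniteDimensional (IntermediateField.adjoin κ {t}) K)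
        (F : Fin p → MvPolynomial (Fin (n + 1)) K) (_ : ∀ j, (F j).IsHomogeneous (d j))
        (_ : AlgebraicIndependent ℚ
          (fun I : {I : Fin p × (Fin (n + 1) →₀ ℕ) // I.2.degree = d I.1} =>
            (F I.1.1).coeff I.1.2))
        (S : Set (Place κ K)) (_ : S.Finite),
        ∃ G : MvPolynomial (Fin (n + 1)) K, (∃ e, G.IsHomogeneous e) ∧
          (∃ z : Fin (n + 1) → AlgebraicClosure K, z ≠ 0 ∧
            (∀ j ∈ A, MvPolynomial.aeval z (F j) = 0) ∧ MvPolynomial.aeval z G ≠ 0) ∧
          ∃ C : ℕ, ∀ (L : Type w) [Field L] [Algebra K L] [FiniteDimensional K L] [Algebra κ L]
            [IsScalarTower κ K L] (x : Fin (n + 1) → L), Module.finrank K L ≤ r → x ≠ 0 →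
            (∀ j ∈ A, MvPolynomial.aeval x (F j) = 0) →
            ((∑ j, d j : ℕ) - n - 1 - ε) * height κ x ≤
                truncCount κ F d S x + ramDeg κ L K + C ∨
              MvPolynomial.aeval x G = 0 :=
  Pool.Agent.Lib.MP_44a246_ntTA.deg_all_const.{u, v, w} p r hε

end Pool.Agent.Lib.Old.MP_44a246_nt_SharpVojta
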